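import Pool.Agent.H463Z.Sul.Key

/-!
# A minimal Sullivan algebra with finite `V^even` and `H^even` and a non-nilpotent generator

Take `a, b, c` of degree 2, six generators `y` of degree 3 killing the six quadrics in `a, b, c`,
and `x` of degree 4 with `d x = a y_{bc} + b y_{ac} - 2 c y_{ab}`. The class of this syzygy in the
first Koszul homology has zero annihilator in `ℚ[a,b,c]/(a,b,c)^2`. Now kill all the even
cohomology above degree 4 by odd generators, degree by degree: no cocycle ever contains a term
`s x^j` with `s` of length at most one, so `x` never becomes nilpotent.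
-/

namespace Pool.Agent.Results.MP_3de1ca_gt.ACounterexample

open Pool.Agent.H463Z.Sul

theorem result : ∃ (deg : ℕ → ℕ) (d : Lam deg →ₗ[ℚ] Lam deg),
    IsMinimalSullivan deg d ∧ (∀ n, {i | deg i = n}.Finite) ∧ {i | Even (deg i)}.Finite ∧
    FiniteDimensional ℚ (EvenCohomology deg d) ∧ ∃ i, ¬ NilpotentInFibre deg d i :=
  ⟨dg, dd, isMinimal, fun n => (finite_dg_lt (n + 1)).subset fun _ hi => hi.le.trans_lt n.lt_succ_self,
    (Set.finite_lt_nat 10).subset fun _ hi => (dg_le_four hi).1, even_fd, 9, not_nilpotent⟩

end Pool.Agent.Results.MP_3de1ca_gt.ACounterexample
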